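import Mathlib
import Pool.Agent.Q160.Tab

/-!
# The tree of standard Young tableaux with at most `k` rows is rigid (MP_291af2_co)
-/

namespace Pool.Agent.Results.MP_291af2_co.Rigid

open Q160.STree

/-- A standard Young tableau with at most `k` rows, given by its size `n` and its entries:
`entry i j` is the entry in row `i` and column `j` (both counted from `0`), and `0` if there is no
cell at `(i, j)`.  Each of `1, …, n` is used once, rows and columns are increasing, and the
nonempty cells form a Young diagram (if a cell is present then so are the cells just to the left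
of it and just above it). -/
@[ext] structure SYT (k : ℕ) where
  size : ℕ
  entry : ℕ → ℕ → ℕ
  entry_le : ∀ i j, entry i j ≤ size
  used_once : ∀ m, 1 ≤ m → m ≤ size → ∃! c : ℕ × ℕ, entry c.1 c.2 = m
  row_inc : ∀ i j, entry i (j + 1) ≠ 0 → entry i j ≠ 0 ∧ entry i j < entry i (j + 1)
  col_inc : ∀ i j, entry (i + 1) j ≠ 0 → entry i j ≠ 0 ∧ entry i j < entry (i + 1) j
  rows_le : ∀ i j, k ≤ i → entry i j = 0

/-- `T` has one cell more than `S`, and `S` is obtained from `T` by deleting the cell which holds
the largest entry of `T`. -/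
def IsChild {k : ℕ} (S T : SYT k) : Prop :=
  T.size = S.size + 1 ∧ ∀ i j, S.entry i j = if T.entry i j = T.size then 0 else T.entry i j

/-- The tree `k`-`SYT`, as a graph. -/
def tree (k : ℕ) : SimpleGraph (SYT k) where
  Adj S T := IsChild S T ∨ IsChild T S
  symm := ⟨fun _ _ h => h.symm⟩
  loopless := ⟨fun S h => by
    rcases h with ⟨h, _⟩ | ⟨h, _⟩ <;> omega⟩

lemma SYT.isTab {k : ℕ} (T : SYT k) : IsTab 0 (fun i => i < k) T.size T.entry where
  lower := fun i j h => by omega
  le := T.entry_le
  surj := fun m h1 h2 => by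
    obtain ⟨c, hc, _⟩ := T.used_once m h1 h2
    exact ⟨c.1, c.2, hc⟩
  inj := fun i j i' j' h1 h2 => by
    obtain ⟨c, _, hu⟩ := T.used_once (T.entry i j) (by omega) (T.entry_le i j)
    have h3 := hu (i, j) rfl
    have h4 := hu (i', j') h2.symm
    have h5 : (i, j) = (i', j') := h3.trans h4.symm
    simpa using h5
  row := fun i j _ h => T.row_inc i j h
  col := fun i j _ h => T.col_inc i j h
  rows := fun i j h => T.rows_le i j (by omega)

/-- The equivalence with the general type of tableaux. -/
def toTab (k : ℕ) : SYT k ≃ Tab 0 (fun i => i < k) where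
  toFun T := ⟨T.size, T.entry, T.isTab⟩
  invFun T := ⟨T.n, T.E, T.isTab.le, fun m h1 h2 => by
      obtain ⟨i, j, hij⟩ := T.isTab.surj m h1 h2
      refine ⟨(i, j), hij, ?_⟩
      rintro ⟨i', j'⟩ h'
      simp only at h'
      obtain ⟨h3, h4⟩ := T.isTab.inj i j i' j' (by omega) (by rw [hij, h'])
      rw [h3, h4],
    fun i j h => T.isTab.row i j (by omega) h,
    fun i j h => T.isTab.col i j (by omega) h,
    fun i j h => T.isTab.rows i j (by omega)⟩
  left_inv _ := rfl
  right_inv _ := rfl

/-- **Answer to MP_291af2_co.**  For every `k ≥ 1` the identity is the only automorphism of the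
tree of standard Young tableaux with at most `k` rows. -/
theorem result (k : ℕ) (hk : 1 ≤ k) (φ : tree k ≃g tree k) (T : SYT k) : φ T = T := by
  let 𝒯 : ShapeTree (SYT k) 0 (fun i => i < k) := (tabTree 0 (fun i => i < k)).pull (toTab k)
  have hG : ∀ v w, (tree k).Adj v w ↔ 𝒯.Child v w ∨ 𝒯.Child w v := by
    have key : ∀ S T : SYT k, IsChild S T ↔ 𝒯.Child S T := by
      intro S T
      show (T.size = S.size + 1 ∧ ∀ i j, S.entry i j = if T.entry i j = T.size then 0
        else T.entry i j) ↔ (T.size = S.size + 1 ∧ S.entry = rem T.size T.entry)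
      constructor
      · rintro ⟨h1, h2⟩
        exact ⟨h1, funext fun i => funext fun j => h2 i j⟩
      · rintro ⟨h1, h2⟩
        exact ⟨h1, fun i j => by rw [h2]; rfl⟩
    intro v w
    show IsChild v w ∨ IsChild w v ↔ _
    rw [key, key]
  have h1 := 𝒯.graph_map_child_iff (tree k) hG (by omega) φ
  have h2 := 𝒯.rigid (fun i j hij hj => by omega) (Or.inr ⟨k, fun i hi => hi⟩) φ.toEquiv h1
  exact congrArg (fun e : SYT k ≃ SYT k => e T) h2

end Pool.Agent.Results.MP_291af2_co.Rigid
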